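import Pool.Agent.RFN.ReqC
import Pool.Agent.RFN.TChoice

set_option autoImplicit false

/-! # Countable transitive models of ZFC from an arbitrary forcing notion

`P` is an arbitrary preorder with a greatest element (in `Type`), `X` a countable set of names with
the closure properties `StB`, and `g` a sufficiently generic filter. `Mod X g` is a transitive model
of ZFC. `el X g u` is the element of the model with the name `u`. -/

namespace Pool.Agent.RFN.GX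

open Pool.Agent.ChoicelessEmb FirstOrder LName

open Pool.Agent.H78.ZF (ZFM IsZFModel opair omega succ)

section Gen

variable {P : Type} [Preorder P] [OrderTop P]

/-- The names which occur in `x`. -/
def chs (x : LName P) : Set (LName P) := {u | ∃ c, (u, c) ∈ ch x}

omit [Preorder P] [OrderTop P] in
instance small_chs (x : LName P) : Small.{0} (chs x) := by
  apply smallR (fun b : ch x => b.1.1)
  rintro u ⟨c, hc⟩
  exact ⟨⟨(u, c), hc⟩, rfl⟩

open Classical in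
/-- An injection of the names which occur in `x` into the ordinals. -/
noncomputable def acOrd (x u : LName P) : Ordinal.{0} :=
  if h : u ∈ chs x then
    Ordinal.typein (WellOrderingRel (α := Shrink.{0} (chs x))) (equivShrink _ ⟨u, h⟩)
  else 0

omit [Preorder P] [OrderTop P] in
theorem acOrd_inj {x u v : LName P} (hu : u ∈ chs x) (hv : v ∈ chs x)
    (h : acOrd x u = acOrd x v) : u = v := by
  unfold acOrd at h
  rw [dif_pos hu, dif_pos hv] at h
  have h1 := (equivShrink (chs x)).injective (Ordinal.typein_injective _ h)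
  exact congrArg Subtype.val h1

/-- The name of the pairs. -/
noncomputable def acN (x : LName P) : LName P :=
  LName.mk {a | ∃ u c, (u, c) ∈ ch x ∧ a = (opairN (checkN (acOrd x u).toZFSet) u, c)}

theorem mem_ch_acN {x v : LName P} {c : P} :
    (v, c) ∈ ch (acN x) ↔ ∃ u, (u, c) ∈ ch x ∧ v = opairN (checkN (acOrd x u).toZFSet) u := by
  have : Small.{0} {a : LName P × P | ∃ u c, (u, c) ∈ ch x ∧
      a = (opairN (checkN (acOrd x u).toZFSet) u, c)} := by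
    apply smallR (fun b : ch x => (opairN (checkN (acOrd x b.1.1).toZFSet) b.1.1, b.1.2))
    rintro a ⟨u, c, hu, rfl⟩
    exact ⟨⟨(u, c), hu⟩, rfl⟩
  unfold acN
  rw [ch_mk]
  constructor
  · rintro ⟨u, c', hu, e⟩
    simp only [Prod.mk.injEq] at e
    obtain ⟨rfl, rfl⟩ := e
    exact ⟨u, hu, rfl⟩
  · rintro ⟨u, hu, rfl⟩
    exact ⟨u, c, hu, rfl⟩

/-- The basic requirements. -/
structure StB (X : Set (LName P)) (g0 g : Set P) : Prop where
  op : OpG X g0 g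
  opair : ∀ u ∈ X, ∀ v ∈ X, opairN u v ∈ X
  proj : ∀ u v, opairN u v ∈ X → u ∈ X ∧ v ∈ X
  nat : ∀ n, (nN n : LName P) ∈ X
  om : (checkN omegaZ : LName P) ∈ X
  ac : ∀ x ∈ X, acN x ∈ X
  ord : ∀ x ∈ X, ∀ u ∈ X, checkN (acOrd x u).toZFSet ∈ X

theorem req_stB : Req fun (X : Set (LName P)) g0 g => StB X g0 g := by
  refine ((Pool.Agent.RFN.req_opG (P := P)).and (Pool.Agent.RFN.req_proj.and
    ((Req.forall fun n => Req.const (nN n)).and ((Req.const (checkN omegaZ)).and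
      ((Req.op1 acN).and (Req.op2 fun x u => checkN (acOrd x u).toZFSet)))))).mono ?_
  rintro X g0 g _ ⟨h1, ⟨h2, h3⟩, h4, h5, h6, h7⟩
  exact ⟨h1, h2, h3, h4, h5, h6, h7⟩

/-- The pair of `X` and `g` as a class. -/
class SB (X : Set (LName P)) (g : Set P) where
  g0 : Set P
  st : StB X g0 g

variable {X : Set (LName P)} {g : Set P}

theorem StB.natZ_mem {g0 : Set P} (h : StB X g0 g) {z : ZFSet.{0}}
    (hz : z = omegaZ ∨ ∃ n, z = natZ n) : val X g (checkN z) = z := by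
  refine Pool.Agent.RFN.val_checkN h.op.atom.fil
    (Z := {z | z = omegaZ ∨ ∃ n, z = natZ n}) ?_ ?_ z hz
  · rintro x (rfl | ⟨n, rfl⟩) y hy
    · obtain ⟨n, rfl⟩ := ZFSet.mem_range.1 hy
      exact Or.inr ⟨n, rfl⟩
    · obtain ⟨m, _, rfl⟩ := mem_natZ.1 hy
      exact Or.inr ⟨m, rfl⟩
  · rintro x (rfl | ⟨n, rfl⟩)
    · exact h.om
    · exact h.nat n

theorem StB.isZF {g0 : Set P} (h : StB X g0 g) :
    IsZFModel (fun x y : Mod X g => x.1 ∈ y.1) := by
  refine Pool.Agent.ZFIter.isZFModel_of (Pool.Agent.RFN.modelsZF h.op ⟨omegaZ, ⟨checkN omegaZ,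
    h.om, h.natZ_mem (Or.inl rfl)⟩, ?_, ?_⟩)
  · exact ZFSet.mem_range.2 ⟨0, rfl⟩
  · intro n hn
    obtain ⟨k, rfl⟩ := ZFSet.mem_range.1 hn
    exact ZFSet.mem_range.2 ⟨k + 1, rfl⟩

/-- The generic extension as a model of ZF. -/
instance instZFM [hs : SB X g] : ZFM (Mod X g) where
  E x y := x.1 ∈ y.1
  zf := hs.st.isZF

variable [hs : SB X g]

include hs in
theorem top_g : (⊤ : P) ∈ g := hs.st.op.atom.fil.top_mem

/-- The element of the model with the name `u`. -/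
noncomputable def el (X : Set (LName P)) (g : Set P) (u : LName P) (hu : u ∈ X) : Mod X g :=
  ⟨val X g u, u, hu, rfl⟩

theorem emb_val : Pool.Agent.ZFIter.Emb (M := Mod X g) (fun x => x.1) where
  inj := Subtype.val_injective
  tr x z hz := ⟨⟨z, Pool.Agent.RFN.Mod_trans x.1 x.2 z hz⟩, rfl⟩
  mem _ _ := Iff.rfl

omit [Preorder P] [OrderTop P] hs in
theorem mem_val_relG {T : Type} {nm : T → LName P}
    {R : T → P → Prop} {v : ZFSet.{0}} : v ∈ val X g (relG nm R) ↔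
      ∃ t, nm t ∈ X ∧ (∃ p ∈ g, R t p) ∧ v = val X g (nm t) := by
  rw [mem_val]
  constructor
  · rintro ⟨u, p, hu, hX, hp, rfl⟩
    obtain ⟨t, ht, rfl⟩ := mem_ch_relG.1 hu
    exact ⟨t, hX, ⟨p, hp, ht⟩, rfl⟩
  · rintro ⟨t, hX, ⟨p, hp, ht⟩, rfl⟩
    exact ⟨nm t, p, mem_ch_relG.2 ⟨t, ht, rfl⟩, hX, hp, rfl⟩

theorem exists_el (a : Mod X g) : ∃ u hu, a = el X g u hu := by
  obtain ⟨_, u, hu, rfl⟩ := a
  exact ⟨u, hu, rfl⟩

theorem el_eq_iff {u v : LName P} (hu : u ∈ X) (hv : v ∈ X) :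
    el X g u hu = el X g v hv ↔ ∃ p ∈ g, feq u v p := by
  rw [← Pool.Agent.RFN.val_eq_iff hs.st.op.atom hu hv]
  exact Subtype.ext_iff

theorem mem_el {u v : LName P} (hu : u ∈ X) (hv : v ∈ X) :
    el X g u hu ∈ el X g v hv ↔ ∃ p ∈ g, fmem u v p :=
  Pool.Agent.RFN.val_mem_iff hs.st.op.atom hu hv

theorem opair_el {u v : LName P} (hu : u ∈ X) (hv : v ∈ X) :
    opair (el X g u hu) (el X g v hv) = el X g (opairN u v) (hs.st.opair u hu v hv) := by
  apply Subtype.ext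
  refine (emb_val.opair (el X g u hu) (el X g v hv)).trans ?_
  exact (Pool.Agent.RFN.val_opairN hs.st.op.atom.fil hs.st.op.pair hu hv).symm

/-- Equality of canonical names. -/
theorem check_inj {x y : ZFSet.{0}} (hx : (checkN x : LName P) ∈ X) (hy : checkN y ∈ X)
    (h : el X g (checkN x) hx = el X g (checkN y) hy) : x = y := by
  obtain ⟨p, _, hp⟩ := (el_eq_iff hx hy).1 h
  exact feq_checkN hp

theorem ck_inj {T : Type} {x y : T} (hx : (ckT T x : LName P) ∈ X) (hy : ckT T y ∈ X)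
    (h : el X g (ckT T x) hx = el X g (ckT T y) hy) : x = y :=
  cd_inj T (check_inj hx hy h)

/-- Membership in a relation. -/
theorem mem_rel {T : Type} {nm : T → LName P} {R : T → P → Prop} (h : relG nm R ∈ X)
    {a : Mod X g} : a ∈ el X g (relG nm R) h ↔
      ∃ t, ∃ ht : nm t ∈ X, (∃ p ∈ g, R t p) ∧ a = el X g (nm t) ht := by
  have h1 : a ∈ el X g (relG nm R) h ↔ a.1 ∈ val X g (relG nm R) := Iff.rfl
  rw [h1, mem_val_relG]
  constructor
  · rintro ⟨t, ht, hp, e⟩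
    exact ⟨t, ht, hp, Subtype.ext e⟩
  · rintro ⟨t, ht, hp, e⟩
    exact ⟨t, ht, hp, congrArg Subtype.val e⟩

/-- Equality of pairs. -/
theorem opair_eq {a b : Mod X g} {u v : LName P} (h : opairN u v ∈ X)
    (e : opair a b = el X g (opairN u v) h) :
    a = el X g u (hs.st.proj u v h).1 ∧ b = el X g v (hs.st.proj u v h).2 := by
  refine Pool.Agent.H78.ZF.opair_inj (e.trans ?_)
  exact (opair_el (hs.st.proj u v h).1 (hs.st.proj u v h).2).symm

/-- The natural numbers of the model. -/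
noncomputable def eN (X : Set (LName P)) (g : Set P) [hs : SB X g] (n : ℕ) : Mod X g :=
  el X g (nN n) (hs.st.nat n)

theorem val_eN (n : ℕ) : (eN X g n).1 = natZ n :=
  hs.st.natZ_mem (Or.inr ⟨n, rfl⟩)

theorem eN_inj : Function.Injective (eN X g) := by
  intro m n h
  obtain ⟨p, _, hp⟩ := (el_eq_iff (hs.st.nat m) (hs.st.nat n)).1 h
  exact natZ_injective (feq_checkN hp)

theorem mem_omega_iff {a : Mod X g} : a ∈ (omega : Mod X g) ↔ ∃ n, a = eN X g n := by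
  have ho : (el X g (checkN omegaZ) hs.st.om).1 = omegaZ := hs.st.natZ_mem (Or.inl rfl)
  rw [emb_val.omega (o := el X g (checkN omegaZ) hs.st.om) ho]
  constructor
  · rintro ⟨n, hn⟩
    exact ⟨n, Subtype.ext (hn.trans (val_eN n).symm)⟩
  · rintro ⟨n, rfl⟩
    exact ⟨n, val_eN n⟩

theorem succ_eN (n : ℕ) : succ (eN X g n) = eN X g (n + 1) := by
  apply Subtype.ext
  refine (emb_val.succ (eN X g n)).trans ?_
  rw [val_eN (n + 1)]
  show insert (eN X g n).1 (eN X g n).1 = _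
  rw [val_eN n]
  rfl

theorem emp_eN : (Pool.Agent.H78.ZF.emp : Mod X g) = eN X g 0 := by
  apply Subtype.ext
  rw [val_eN 0]
  exact emb_val.emp

/-- The elements of the value of the canonical name of an ordinal. -/
theorem mem_val_ord (hg : ⊤ ∈ g) {α : Ordinal.{0}} {v : ZFSet.{0}} :
    v ∈ val X g (checkN α.toZFSet) ↔
      ∃ β < α, (checkN β.toZFSet : LName P) ∈ X ∧ v = val X g (checkN β.toZFSet) := by
  rw [mem_val]
  constructor
  · rintro ⟨u, c, hu, hX, hc, rfl⟩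
    obtain ⟨y, hy, rfl, rfl⟩ := mem_ch_checkN.1 hu
    obtain ⟨β, hβ, rfl⟩ := Ordinal.mem_toZFSet_iff.1 hy
    exact ⟨β, hβ, hX, rfl⟩
  · rintro ⟨β, hβ, hX, rfl⟩
    exact ⟨checkN β.toZFSet, ⊤, mem_ch_checkN.2 ⟨_, Ordinal.mem_toZFSet_iff.2 ⟨β, hβ, rfl⟩, rfl, rfl⟩,
      hX, hg, rfl⟩

theorem val_ord (hg : ⊤ ∈ g) {α β : Ordinal.{0}} (hα : (checkN α.toZFSet : LName P) ∈ X)
    (hβ : (checkN β.toZFSet : LName P) ∈ X) :
    (val X g (checkN β.toZFSet) ∈ val X g (checkN α.toZFSet) ↔ β < α) ∧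
      (val X g (checkN β.toZFSet) = val X g (checkN α.toZFSet) ↔ β = α) := by
  have h1 : ∀ {α β : Ordinal.{0}}, (checkN β.toZFSet : LName P) ∈ X → β < α →
      val X g (checkN β.toZFSet) ∈ val X g (checkN α.toZFSet) :=
    fun hX h => (mem_val_ord hg).2 ⟨_, h, hX, rfl⟩
  have h2 : ∀ {α β : Ordinal.{0}}, (checkN α.toZFSet : LName P) ∈ X →
      (checkN β.toZFSet : LName P) ∈ X →
      val X g (checkN β.toZFSet) = val X g (checkN α.toZFSet) → β = α := by
    intro α β hα hβ h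
    rcases lt_trichotomy β α with h' | h' | h'
    · have := h1 hβ h'
      rw [h] at this
      exact absurd this (ZFSet.mem_irrefl _)
    · exact h'
    · have := h1 hα h'
      rw [h] at this
      exact absurd this (ZFSet.mem_irrefl _)
  refine ⟨⟨fun h => ?_, h1 hβ⟩, ⟨h2 hα hβ, fun h => by rw [h]⟩⟩
  obtain ⟨γ, hγ, hγX, e⟩ := (mem_val_ord hg).1 h
  rw [h2 hγX hβ e]
  exact hγ

theorem exists_wo (x : Mod X g) : ∃ R, Pool.Agent.RFN.WOx x R := by
  have hg : ⊤ ∈ g := hs.st.op.atom.fil.top_mem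
  obtain ⟨x', hx', rfl⟩ := exists_el x
  -- the elements of the set
  have hx : ∀ v : Mod X g, v ∈ el X g x' hx' ↔
      ∃ u, ∃ hu : u ∈ X, (∃ p ∈ g, (u, p) ∈ ch x') ∧ v = el X g u hu := by
    intro v
    have h1 : v ∈ el X g x' hx' ↔ v.1 ∈ val X g x' := Iff.rfl
    rw [h1, mem_val]
    constructor
    · rintro ⟨u, p, hu, hX, hp, e⟩
      exact ⟨u, hX, ⟨p, hp, hu⟩, Subtype.ext e⟩
    · rintro ⟨u, hX, ⟨p, hp, hu⟩, e⟩
      exact ⟨u, p, hu, hX, hp, congrArg Subtype.val e⟩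
  -- the pairs of the relation
  have hR : ∀ α v : Mod X g, opair α v ∈ el X g (acN x') (hs.st.ac x' hx') ↔
      ∃ u, ∃ hu : u ∈ X, (∃ p ∈ g, (u, p) ∈ ch x') ∧
        α = el X g (checkN (acOrd x' u).toZFSet) (hs.st.ord x' hx' u hu) ∧ v = el X g u hu := by
    intro α v
    have h1 : opair α v ∈ el X g (acN x') (hs.st.ac x' hx') ↔
        (opair α v).1 ∈ val X g (acN x') := Iff.rfl
    rw [h1, mem_val]
    constructor
    · rintro ⟨w, p, hw, hX, hp, e⟩
      obtain ⟨u, hu, rfl⟩ := mem_ch_acN.1 hw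
      obtain ⟨h2, h3⟩ := hs.st.proj _ _ hX
      refine ⟨u, h3, ⟨p, hp, hu⟩, ?_⟩
      have e' : opair α v = opair (el X g (checkN (acOrd x' u).toZFSet) h2) (el X g u h3) := by
        rw [opair_el]
        exact Subtype.ext e
      exact Pool.Agent.H78.ZF.opair_inj e'
    · rintro ⟨u, hX, ⟨p, hp, hu⟩, rfl, rfl⟩
      refine ⟨_, p, mem_ch_acN.2 ⟨u, hu, rfl⟩,
        hs.st.opair _ (hs.st.ord x' hx' u hX) _ hX, hp, ?_⟩
      exact congrArg Subtype.val (opair_el (hs.st.ord x' hx' u hX) hX)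
  have hle : ∀ {u v : LName P} (hu : u ∈ X) (hv : v ∈ X),
      (el X g (checkN (acOrd x' u).toZFSet) (hs.st.ord x' hx' u hu) ∈
        el X g (checkN (acOrd x' v).toZFSet) (hs.st.ord x' hx' v hv) ↔
          acOrd x' u < acOrd x' v) ∧
      (el X g (checkN (acOrd x' u).toZFSet) (hs.st.ord x' hx' u hu) =
        el X g (checkN (acOrd x' v).toZFSet) (hs.st.ord x' hx' v hv) ↔
          acOrd x' u = acOrd x' v) := by
    intro u v hu hv
    obtain ⟨h1, h2⟩ := val_ord (X := X) hg (hs.st.ord x' hx' v hv) (hs.st.ord x' hx' u hu)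
    exact ⟨h1, Subtype.ext_iff.trans h2⟩
  refine ⟨el X g (acN x') (hs.st.ac x' hx'), ?_, ?_, ?_, ?_⟩
  · intro v hv
    obtain ⟨u, hu, hp, rfl⟩ := (hx v).1 hv
    exact ⟨_, (hR _ _).2 ⟨u, hu, hp, rfl, rfl⟩⟩
  · intro α v w hv hw
    obtain ⟨u, hu, ⟨p, hp, hpu⟩, rfl, rfl⟩ := (hR _ _).1 hv
    obtain ⟨u', hu', ⟨p', hp', hpu'⟩, e, rfl⟩ := (hR _ _).1 hw
    have h1 := (hle hu hu').2.1 e
    have h2 : u = u' := acOrd_inj ⟨p, hpu⟩ ⟨p', hpu'⟩ h1
    subst h2
    rfl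
  · intro α v β w hv hw
    obtain ⟨u, hu, _, rfl, rfl⟩ := (hR _ _).1 hv
    obtain ⟨u', hu', _, rfl, rfl⟩ := (hR _ _).1 hw
    rcases lt_trichotomy (acOrd x' u) (acOrd x' u') with h | h | h
    · exact Or.inl ((hle hu hu').1.2 h)
    · exact Or.inr (Or.inl ((hle hu hu').2.2 h))
    · exact Or.inr (Or.inr ((hle hu' hu).1.2 h))
  · intro y ⟨α, v, hv, hvy⟩
    obtain ⟨u, hu, hp, rfl, rfl⟩ := (hR _ _).1 hv
    have hne : {o : Ordinal.{0} | ∃ u, ∃ hu : u ∈ X, (∃ p ∈ g, (u, p) ∈ ch x') ∧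
        el X g u hu ∈ y ∧ o = acOrd x' u}.Nonempty := ⟨_, u, hu, hp, hvy, rfl⟩
    obtain ⟨u0, hu0, hp0, hy0, e0⟩ := WellFounded.min_mem Ordinal.lt_wf _ hne
    refine ⟨_, _, (hR _ _).2 ⟨u0, hu0, hp0, rfl, rfl⟩, hy0, ?_⟩
    intro β w hw hwy hβ
    obtain ⟨u1, hu1, hp1, rfl, rfl⟩ := (hR _ _).1 hw
    have h1 := (hle hu1 hu0).1.1 hβ
    rw [← e0] at h1
    have h2 : acOrd x' u1 ∈ {o : Ordinal.{0} | ∃ u, ∃ hu : u ∈ X, (∃ p ∈ g, (u, p) ∈ ch x') ∧
        el X g u hu ∈ y ∧ o = acOrd x' u} := ⟨u1, hu1, hp1, hwy, rfl⟩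
    exact WellFounded.not_lt_min Ordinal.lt_wf _ h2 h1

theorem choice_mod : Pool.Agent.RFN.Choice (Mod X g) :=
  Pool.Agent.RFN.choice_of_wo fun x => exists_wo x

end Gen

section alt

variable {P : Type} [Preorder P] [OrderTop P]

theorem dec0_dense {g0 D : Set P} (h : Dec0 g0 D)
    (hD : ∀ p : P, ∃ r ≤ p, r ∈ D) : ∃ p ∈ g0, p ∈ D := by
  obtain ⟨p, hp, h1 | h1⟩ := h
  · exact ⟨p, hp, h1⟩
  · obtain ⟨r, hr, hr'⟩ := hD p
    exact absurd hr' (h1 r hr)

/-- A family of bad sets: either a bad condition with an index named in `X` is in `g0`, or some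
condition of `g0` has no bad extension. -/
theorem req_alt {I : Type} (nm : I → LName P) (k : ℕ) (Bad : (Fin k → LName P) → I → Set P) :
    Req fun X g0 _ => ∀ v : Fin k → LName P, (∀ i, v i ∈ X) →
      (∃ p ∈ g0, ∃ i, nm i ∈ X ∧ p ∈ Bad v i) ∨ ∃ p ∈ g0, ∀ r ≤ p, ∀ i, r ∉ Bad v i := by
  refine ((Req.dec k fun v => {p : P | ∃ i, p ∈ Bad v i}).and
    (Req.refl k fun v r w => ∃ i, w = nm i ∧ r ∈ Bad v i)).mono ?_
  rintro X g0 g _ ⟨h1, h2⟩ v hv
  obtain ⟨p, hp, h | h⟩ := h1 v hv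
  · left
    obtain ⟨i, hi⟩ := h
    obtain ⟨w, hw, j, rfl, hj⟩ := h2 v hv p hp ⟨nm i, i, rfl, hi⟩
    exact ⟨p, hp, j, hw, hj⟩
  · right
    exact ⟨p, hp, fun r hr i hi => h r hr ⟨i, hi⟩⟩

end alt

end Pool.Agent.RFN.GX
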